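import Pool.Agent.W406.PX.Stmts
import Pool.Agent.H96R3.BC.Basic
import Pool.Agent.H394R3.BC.Cell

/-!
# Project PX: bounds of the source (adapted from `Pool.Agent.H394R3.ET.Src`)
-/

set_option autoImplicit false

open Finset MeasureTheory

namespace Pool.Agent.W414.PX

open Pool.Agent.W406.PX
open Pool.Agent.H96R3.BC (vv NN vv_nonneg vv_pos)
open Pool.Agent.H394R3.BC (Ker cellB cellM cellB_poly cellB_sub cellB_abs_le Ker_cont_left Ker_cont_right
  Ker_taylor_gen Ker_le_pow cell_taylor fac_pos one_le_fac cellM_nonneg)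

/-- Taylor bound near `v = 0` -/
theorem cell_taylor0 (k m : ℕ) {A u : ℕ → ℝ} {f : ℝ → ℝ} (hf : Continuous f) {S : Finset ℕ} {a b v : ℝ}
    (ha : 0 ≤ a) (hab : a ≤ b) (hu : ∀ n ∈ S, u n ∈ Set.Icc a b) (hv : 0 ≤ v)
    (hm : ∀ i < m, cellB A u f S a b (fun w => (w - a) ^ i) = 0) :
    |cellB A u f S a b (fun w => Ker k w v)| ≤ (b - a) ^ m * v ^ (k + m) * cellM A f S a b := by
  set P : ℝ → ℝ := fun w => ∑ i ∈ Finset.range m, (w - a) ^ i *
    ((-1) ^ i * Ker (k + i) a v / (i.factorial : ℝ)) with hP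
  have hPc : Continuous P := by rw [hP]; fun_prop
  have h0 := cellB_poly (A := A) (u := u) hf S a b m
    (fun i => (-1) ^ i * Ker (k + i) a v / (i.factorial : ℝ)) hm
  have h1 := cellB_sub (A := A) (u := u) hf (Ker_cont_left k v) hPc S a b
  have h2 : cellB A u f S a b P = 0 := h0
  rw [h2, sub_zero] at h1
  rw [← h1]
  apply cellB_abs_le hf ((Ker_cont_left k v).sub hPc) hab hu
  intro w hw
  have h3 := Ker_taylor_gen k m a w v (v ^ (k + m)) (fun s hs => by
    rw [Set.uIcc_of_le hw.1] at hs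
    exact (Ker_le_pow (k + m) (ha.trans hs.1) hv).trans (div_le_self (pow_nonneg hv _) (one_le_fac _)))
  have e : (∑ i ∈ Finset.range m, (w - a) ^ i / (i.factorial : ℝ) * ((-1) ^ i * Ker (k + i) a v)) = P w := by
    rw [hP]
    apply Finset.sum_congr rfl
    intro i _
    ring
  rw [e] at h3
  refine h3.trans ?_
  rw [abs_of_nonneg (by linarith [hw.1] : 0 ≤ w - a)]
  have h4 : (w - a) ^ m ≤ (b - a) ^ m := pow_le_pow_left₀ (by linarith [hw.1]) (by linarith [hw.2]) m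
  have h5 := fac_pos m
  have h7 := one_le_fac m
  have h6 : 0 ≤ v ^ (k + m) := pow_nonneg hv _
  have h8 : 0 ≤ (w - a) ^ m := pow_nonneg (by linarith [hw.1]) m
  calc _ ≤ (w - a) ^ m * v ^ (k + m) := by
        apply mul_le_mul_of_nonneg_right _ h6
        exact div_le_self h8 h7
    _ ≤ _ := by gcongr

lemma vv_mono (Q j' : ℕ) {a b : ℕ} (h : a ≤ b) : vv Q j' a ≤ vv Q j' b := by
  unfold vv
  have h1 : (a : ℝ) ≤ b := by exact_mod_cast h
  apply Real.rpow_le_rpow (by positivity) _ (by positivity)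
  exact div_le_div_of_nonneg_right h1 (by positivity)

variable {Q j' m : ℕ} {B : ℕ → ℕ} {w : ℕ → ℝ → ℝ} {ε : ℝ} {ω : ℕ → ℝ} {s : ℕ → ℝ}

lemma B_large (hS : Sys Q j' B w ε ω) (i : ℕ) : 16 ≤ B i := by
  have h1 := hS.low
  have h2 := hS.mono.monotone (Nat.zero_le i)
  have h3 : j' ≤ j' ^ (2 * Q) := Nat.le_self_pow (by have := hS.hQ; omega) _
  have := hS.hj
  omega

lemma be_mono (hS : Sys Q j' B w ε ω) {i k : ℕ} (h : i ≤ k) : be Q j' B i ≤ be Q j' B k :=
  vv_mono Q j' (hS.mono.monotone h)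

lemma be_pos (hS : Sys Q j' B w ε ω) (i : ℕ) : 0 < be Q j' B i :=
  vv_pos (by have := hS.hj; omega) (by have := B_large hS i; omega)

lemma vv_mem' (hS : Sys Q j' B w ε ω) {i k n : ℕ} (hn : n ∈ Ioc (B i) (B k)) :
    vv Q j' n ∈ Set.Icc (be Q j' B i) (be Q j' B k) := by
  rw [mem_Ioc] at hn
  exact ⟨vv_mono Q j' hn.1.le, vv_mono Q j' hn.2⟩

lemma Sg_eq (Q j' m : ℕ) (B : ℕ → ℕ) (s : ℕ → ℝ) (g : ℕ) (v : ℝ) :
    Sg Q j' m B s g v = cellB (fun n => s n * (vv Q j' n) ^ 2) (vv Q j') (fun _ => 0)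
      (Ioc (B (m * g)) (B (m * (g + 1)))) (be Q j' B (m * g)) (be Q j' B (m * (g + 1)))
      (fun w => Ker (4 * Q + 3) w v) := by
  unfold Sg cellB
  simp only [zero_mul, intervalIntegral.integral_zero, sub_zero]

lemma Sg_mom (hs : SrcOK Q j' m B s) (g : ℕ) (i : ℕ) (hi : i < 4 * Q + 4) :
    cellB (fun n => s n * (vv Q j' n) ^ 2) (vv Q j') (fun _ => 0)
      (Ioc (B (m * g)) (B (m * (g + 1)))) (be Q j' B (m * g)) (be Q j' B (m * (g + 1)))
      (fun w => (w - be Q j' B (m * g)) ^ i) = 0 := by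
  unfold cellB
  simp only [zero_mul, intervalIntegral.integral_zero, sub_zero]
  have h := hs.mom g ((Polynomial.X - Polynomial.C (be Q j' B (m * g))) ^ i) (by
    rw [Polynomial.natDegree_pow, Polynomial.natDegree_X_sub_C, mul_one]
    exact hi)
  simpa using h

lemma one_le_log {n : ℕ} (hn : 16 ≤ n) : 1 ≤ Real.log n := by
  have h2 : (3:ℝ) ≤ n := by exact_mod_cast (by omega : 3 ≤ n)
  rw [Real.le_log_iff_exp_le (by linarith)]
  have := Real.exp_one_lt_d9
  linarith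

lemma gw_half_le {n : ℕ} (hn : 16 ≤ n) : gw n / 2 ≤ 1 := by
  unfold gw
  split_ifs
  · have h1 := one_le_log hn
    have h3 : 1 / (Real.log n) ^ 2 ≤ 1 := by
      rw [div_le_one (by positivity)]
      nlinarith
    linarith
  · norm_num

lemma Sg_mass (hS : Sys Q j' B w ε ω) (hs : SrcOK Q j' m B s) (g : ℕ) :
    cellM (fun n => s n * (vv Q j' n) ^ 2) (fun _ => 0) (Ioc (B (m * g)) (B (m * (g + 1))))
      (be Q j' B (m * g)) (be Q j' B (m * (g + 1))) ≤
      (Ioc (B (m * g)) (B (m * (g + 1)))).card * be Q j' B (m * (g + 1)) ^ 2 := by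
  unfold cellM
  simp only [abs_zero, intervalIntegral.integral_zero, add_zero]
  have h : ∀ n ∈ Ioc (B (m * g)) (B (m * (g + 1))), |s n * (vv Q j' n) ^ 2| ≤ be Q j' B (m * (g + 1)) ^ 2 := by
    intro n hn
    have h16 : 16 ≤ n := by
      have := B_large hS (m * g)
      have := (mem_Ioc.1 hn).1
      omega
    have h2 := hs.bd n
    have h3 := gw_half_le h16
    have h4 := vv_mem' hS hn
    rw [abs_mul, abs_of_nonneg (sq_nonneg (vv Q j' n))]
    calc |s n| * (vv Q j' n) ^ 2 ≤ 1 * be Q j' B (m * (g + 1)) ^ 2 :=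
          mul_le_mul (h2.trans h3) (pow_le_pow_left₀ (vv_nonneg _ _ _) h4.2 2) (sq_nonneg _) zero_le_one
      _ = _ := one_mul _
  calc _ ≤ ∑ n ∈ Ioc (B (m * g)) (B (m * (g + 1))), be Q j' B (m * (g + 1)) ^ 2 := Finset.sum_le_sum h
    _ = _ := by rw [Finset.sum_const, nsmul_eq_mul]

lemma Sg_small (hS : Sys Q j' B w ε ω) (hs : SrcOK Q j' m B s) (g : ℕ) {v : ℝ} (hv : 0 ≤ v) :
    |Sg Q j' m B s g v| ≤ rA Q j' m B g * v ^ (8 * Q + 7) := by
  rw [Sg_eq]
  have hU := be_mono hS (show m * g ≤ m * (g + 1) from Nat.mul_le_mul_left _ (by omega))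
  have h := cell_taylor0 (4 * Q + 3) (4 * Q + 4) (A := fun n => s n * (vv Q j' n) ^ 2) (u := vv Q j')
    (f := fun _ => 0) (S := Ioc (B (m * g)) (B (m * (g + 1)))) (a := be Q j' B (m * g))
    (b := be Q j' B (m * (g + 1))) continuous_const (be_pos hS _).le hU
    (fun n hn => vv_mem' hS hn) hv (fun l hl => Sg_mom hs g l hl)
  have hm := Sg_mass hS hs g
  refine h.trans ?_
  have h1 : 0 ≤ (be Q j' B (m * (g + 1)) - be Q j' B (m * g)) ^ (4 * Q + 4) := pow_nonneg (by linarith) _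
  have h2 : (0:ℝ) ≤ v ^ (4 * Q + 3 + (4 * Q + 4)) := pow_nonneg hv _
  calc _ ≤ (be Q j' B (m * (g + 1)) - be Q j' B (m * g)) ^ (4 * Q + 4) * v ^ (4 * Q + 3 + (4 * Q + 4)) *
        ((Ioc (B (m * g)) (B (m * (g + 1)))).card * be Q j' B (m * (g + 1)) ^ 2) :=
          mul_le_mul_of_nonneg_left hm (by positivity)
    _ = _ := by
        unfold rA
        have : 4 * Q + 3 + (4 * Q + 4) = 8 * Q + 7 := by ring
        rw [this]
        ring

lemma Sg_large (hS : Sys Q j' B w ε ω) (hs : SrcOK Q j' m B s) (g : ℕ) {v : ℝ} (hv : 0 ≤ v) :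
    |Sg Q j' m B s g v| ≤ rB Q j' m B g * v ^ (3 * Q + 2) := by
  rw [Sg_eq]
  have hU := be_mono hS (show m * g ≤ m * (g + 1) from Nat.mul_le_mul_left _ (by omega))
  have hUp := be_pos hS (m * g)
  have h := cell_taylor (4 * Q + 3) (2 * Q + 1) (A := fun n => s n * (vv Q j' n) ^ 2) (u := vv Q j')
    (f := fun _ => 0) (S := Ioc (B (m * g)) (B (m * (g + 1)))) (a := be Q j' B (m * g))
    (b := be Q j' B (m * (g + 1))) continuous_const hUp hU
    (fun n hn => vv_mem' hS hn) hv (fun l hl => Sg_mom hs g l (by omega))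
  have hm := Sg_mass hS hs g
  refine h.trans ?_
  have e1 : (v / be Q j' B (m * g)) ^ (((4 * Q + 3 + (2 * Q + 1) : ℕ) : ℝ) / 2) =
      (v / be Q j' B (m * g)) ^ (3 * Q + 2) := by
    rw [← Real.rpow_natCast]
    congr 1
    push_cast
    ring
  rw [e1]
  have h1 : 0 ≤ (be Q j' B (m * (g + 1)) - be Q j' B (m * g)) ^ (2 * Q + 1) := pow_nonneg (by linarith) _
  have h2 : (0:ℝ) ≤ (v / be Q j' B (m * g)) ^ (3 * Q + 2) := pow_nonneg (div_nonneg hv hUp.le) _
  have h3 := one_le_fac (2 * Q + 1)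
  calc _ ≤ (be Q j' B (m * (g + 1)) - be Q j' B (m * g)) ^ (2 * Q + 1) * (v / be Q j' B (m * g)) ^ (3 * Q + 2) *
        ((Ioc (B (m * g)) (B (m * (g + 1)))).card * be Q j' B (m * (g + 1)) ^ 2) := by
        apply mul_le_mul _ hm (cellM_nonneg _ _ _ hU) (by positivity)
        exact mul_le_mul_of_nonneg_right (div_le_self h1 h3) h2
    _ = _ := by
        unfold rB
        rw [div_pow]
        ring

lemma Sg_cont (Q j' m : ℕ) (B : ℕ → ℕ) (s : ℕ → ℝ) (g : ℕ) : Continuous fun v => Sg Q j' m B s g v := by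
  unfold Sg
  exact continuous_finsetSum _ fun p _ => continuous_const.mul (Ker_cont_right _ _)

lemma rA_nonneg (hS : Sys Q j' B w ε ω) (g : ℕ) : 0 ≤ rA Q j' m B g := by
  unfold rA
  have hU := be_mono hS (show m * g ≤ m * (g + 1) from Nat.mul_le_mul_left _ (by omega))
  have h1 : 0 ≤ (be Q j' B (m * (g + 1)) - be Q j' B (m * g)) ^ (4 * Q + 4) := pow_nonneg (by linarith) _
  positivity

lemma Sg_summable (hS : Sys Q j' B w ε ω) (hs : SrcOK Q j' m B s) {v : ℝ} (hv : 0 ≤ v) :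
    Summable fun g : ℕ => Sg Q j' m B s g v :=
  Summable.of_norm_bounded (hs.sumA.1.mul_right (v ^ (8 * Q + 7))) fun i => by
    rw [Real.norm_eq_abs]; exact Sg_small hS hs i hv

lemma Sr_le (hS : Sys Q j' B w ε ω) (hs : SrcOK Q j' m B s) {v : ℝ} (hv : 0 ≤ v) :
    |∑' g, Sg Q j' m B s g v| ≤ kp Q j' / 16 * NN Q v := by
  have hsum := Sg_summable hS hs hv
  have hκ : 0 ≤ kp Q j' := by unfold kp; positivity
  have h0 : |∑' g, Sg Q j' m B s g v| ≤ ∑' i, |Sg Q j' m B s i v| := by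
    have := norm_tsum_le_tsum_norm (f := fun i => Sg Q j' m B s i v) (by simpa using hsum.abs)
    simpa using this
  refine h0.trans ?_
  unfold NN
  split_ifs with h
  · calc ∑' i, |Sg Q j' m B s i v| ≤ ∑' i, rA Q j' m B i * v ^ (8 * Q + 7) :=
          Summable.tsum_le_tsum (fun i => Sg_small hS hs i hv) hsum.abs (hs.sumA.1.mul_right _)
      _ = (∑' i, rA Q j' m B i) * v ^ (8 * Q + 7) := tsum_mul_right
      _ ≤ kp Q j' / 16 * v ^ (4 * Q + 3) := by
          apply mul_le_mul hs.sumA.2 (pow_le_pow_of_le_one hv h (by omega)) (by positivity) (by positivity)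
  · calc ∑' i, |Sg Q j' m B s i v| ≤ ∑' i, rB Q j' m B i * v ^ (3 * Q + 2) :=
          Summable.tsum_le_tsum (fun i => Sg_large hS hs i hv) hsum.abs (hs.sumB.1.mul_right _)
      _ = (∑' i, rB Q j' m B i) * v ^ (3 * Q + 2) := tsum_mul_right
      _ ≤ kp Q j' / 16 * v ^ (3 * Q + 2) := mul_le_mul_of_nonneg_right hs.sumB.2 (by positivity)

lemma Sr_cont (hS : Sys Q j' B w ε ω) (hs : SrcOK Q j' m B s) :
    Continuous fun v : ℝ => ∑' g, Sg Q j' m B s g (max v 0) := by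
  rw [continuous_iff_continuousAt]
  intro v₀
  have hon : ContinuousOn (fun v : ℝ => ∑' g, Sg Q j' m B s g (max v 0)) (Set.Iio (|v₀| + 1)) := by
    refine continuousOn_tsum (u := fun i => rA Q j' m B i * (|v₀| + 1) ^ (8 * Q + 7)) (fun i => ?_)
      (hs.sumA.1.mul_right _) ?_
    · exact ((Sg_cont Q j' m B s i).comp (continuous_id.max continuous_const)).continuousOn
    · intro i v hv
      rw [Real.norm_eq_abs]
      refine (Sg_small hS hs i (le_max_right _ _)).trans ?_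
      apply mul_le_mul_of_nonneg_left _ (rA_nonneg hS i)
      apply pow_le_pow_left₀ (le_max_right _ _)
      exact max_le (le_of_lt hv) (by positivity)
  refine hon.continuousAt (Iio_mem_nhds ?_)
  have := le_abs_self v₀
  linarith

theorem task : Pool.Agent.W406.PX.TaskSrc := by
  intro Q j' m B w ε ω hS s hs
  exact ⟨fun g v hv => Sg_small hS hs g hv, fun g v hv => Sg_large hS hs g hv,
    fun v hv => Sg_summable hS hs hv, fun v hv => Sr_le hS hs hv, Sr_cont hS hs⟩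

end Pool.Agent.W414.PX
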